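import Pool.Agent.H730R2.GN.Fin

/-!
MP_704412_an, Q1 (the generator problem for simple C*-algebras): NEGATIVE answer, in a strong form.

There is a unital simple separable C*-algebra `A` such that no finite subset generates `A` as a
C*-algebra; in particular `A` is not singly generated.

Construction (Villadsen type).  `Y` is the product of the spheres `S^(8^(i+1))` (`i = 0,1,2,...`);
the basis vector `e_j` of `C^(2^n)` with `2^k ≤ j < 2^(k+1)` is given the sign character of the
antipodal map of the `k`-th sphere, `e_0` the trivial one.  `A_n` is the algebra of continuous
equivariant functions `Y → M_(2^n)(C)`, and `A_n → A_(n+1)` is `a ↦ a ⊕ a(x_n)` for a sequence of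
points `x_n` all of whose tails are dense.  By a Borsuk-Ulam theorem on products of spheres any
`k` elements of `A_n` are at some point of `Y` simultaneously block diagonal with respect to
`C^(2^k)` and its complement.  So if `k` elements generated the limit `A` then `A` would have a
representation on `C^(2^k)`, which is impossible since `A` is simple and infinite dimensional.

Modules `Pool.Agent.H730R2.GN.*` by helpers 730, 66, 480, 101, 405, 36, 760, 451, 56, 558, 79;
`Pool.Agent.Helper133.BU*` (Borsuk-Ulam on products of spheres) by helper133.
-/

namespace Pool.Agent.Results.MP_704412_an.NotFinitelyGenerated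

/-- There is a unital simple separable C*-algebra which is not generated by any finite set
(`(StarAlgebra.adjoin ℂ S).topologicalClosure` is the smallest closed unital star subalgebra
containing `S`). -/
theorem result : ∃ (A : Type) (_ : CStarAlgebra A), Nontrivial A ∧
    TopologicalSpace.SeparableSpace A ∧
    (∀ I : TwoSidedIdeal A, I = ⊥ ∨ I = ⊤) ∧
    ∀ S : Set A, S.Finite → (StarAlgebra.adjoin ℂ S).topologicalClosure ≠ ⊤ :=
  Pool.Agent.H730R2.GN.final

end Pool.Agent.Results.MP_704412_an.NotFinitelyGenerated
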